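import Pool.Agent.Helper4.P11.StD

/-!
# Project P11 (levels 11^n), module LBof: lower bound, assembly

Adapted from `Pool/Agent/Helper7/TK7/M_LBof.lean`.
-/

set_option autoImplicit false

namespace Pool.Agent.Helper62.P11

open Pool.Agent.Helper4.P11
open Pool.Agent.Helper76.P11 (dd11)
open Pool.Agent.Helper83.P1C (LBP)
open Pool.Agent.Helper14.CV (Homog EqC act Tl Tl_add Tl_smul)
open Pool.Agent.Helper28.WK (SymP Tw evw Ok)
open Pool.Agent.Helper14.W5 (Tw_add Tw_smul evLP)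
open Pool.Agent.Helper93.TLE (DDE)

private theorem unit_det {ι : Type} [Fintype ι] [DecidableEq ι] (k1 k2 k3 : ι → ℕ)
    (hinj : ∀ t u, k1 t = k1 u → k2 t = k2 u → k3 t = k3 u → t = u) (M : Matrix ι ι ℤ)
    (hd : ∀ t, ((M t t : ℤ) : ZMod 11) ≠ 0)
    (hM : ∀ t u, ((M t u : ℤ) : ZMod 11) ≠ 0 → k1 u < k1 t ∨
      (k1 u = k1 t ∧ (k2 u < k2 t ∨ (k2 u = k2 t ∧ k3 u ≤ k3 t)))) :
    M.det ≠ 0 := by
  have : Fact (Nat.Prime 11) := ⟨by norm_num⟩
  intro h0
  have h1 : (M.map (fun x : ℤ => (x : ZMod 11))).det = 0 := by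
    have := Int.cast_det (R := ZMod 11) M
    rw [h0] at this
    rw [← this]
    simp
  obtain ⟨v, hv, hz⟩ := Matrix.exists_vecMul_eq_zero_iff.2 h1
  have hne : (Finset.univ.filter fun t => v t ≠ 0).Nonempty := by
    by_contra hc
    rw [Finset.not_nonempty_iff_eq_empty, Finset.filter_eq_empty_iff] at hc
    apply hv
    funext t
    simpa using hc (Finset.mem_univ t)
  obtain ⟨t0, ht0, hmax⟩ := Finset.exists_max_image _
    (fun t => (toLex (k1 t, toLex (k2 t, k3 t)) : ℕ ×ₗ (ℕ ×ₗ ℕ))) hne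
  have hz0 := congrFun hz t0
  rw [Matrix.vecMul, dotProduct] at hz0
  rw [Finset.sum_eq_single t0] at hz0
  · simp only [Matrix.map_apply, Pi.zero_apply] at hz0
    rcases mul_eq_zero.1 hz0 with h | h
    · exact (Finset.mem_filter.1 ht0).2 h
    · exact hd t0 h
  · intro t _ htn
    by_cases hvt : v t = 0
    · rw [hvt, zero_mul]
    · by_cases hm : ((M t t0 : ℤ) : ZMod 11) = 0
      · simp only [Matrix.map_apply, hm, mul_zero]
      · exfalso
        have h2 := hmax t (Finset.mem_filter.2 ⟨Finset.mem_univ _, hvt⟩)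
        simp only [Prod.Lex.le_iff, ofLex_toLex] at h2
        have h3 := hM t t0 hm
        apply htn
        apply hinj
        · omega
        · omega
        · omega
  · intro h
    exact absurd (Finset.mem_univ _) h

/-! ### The values `evM` as linear maps -/

/-- The Hecke operator as a linear map. -/
private def TlL (l : ℕ) : Module.End ℂ (ℤ → ℤ → ℂ) where
  toFun G := Tl l 1 G
  map_add' G H := Tl_add l 1 G H
  map_smul' s G := Tl_smul s l 1 G

/-- A word as a linear map. -/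
private def TwL (ls : List ℕ) : Module.End ℂ (ℤ → ℤ → ℂ) where
  toFun G := Tw 1 ls G
  map_add' G H := Tw_add 1 ls G H
  map_smul' s G := Tw_smul s 1 ls G

/-- A combination of words as a linear map. -/
private noncomputable def cOL (W : List (ℤ × List ℕ)) : Module.End ℂ (ℤ → ℤ → ℂ) :=
  (W.map fun t => t.1 • TwL t.2).sum

private theorem cOL_apply (W : List (ℤ × List ℕ)) (G : ℤ → ℤ → ℂ) : cOL W G = cO W 1 G := by
  induction W with
  | nil => rfl
  | cons t W ih =>
    have h1 : cOL (t :: W) = t.1 • TwL t.2 + cOL W := by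
      unfold cOL
      rw [List.map_cons, List.sum_cons]
    have h2 : cO (t :: W) 1 G = t.1 • Tw 1 t.2 G + cO W 1 G := by
      unfold cO
      rw [List.map_cons, List.sum_cons]
    rw [h1, h2, LinearMap.add_apply, ih, LinearMap.smul_apply]
    rfl

private theorem coe_cOL (W : List (ℤ × List ℕ)) :
    (cOL W : (ℤ → ℤ → ℂ) → (ℤ → ℤ → ℂ)) = cO W 1 := by
  funext G
  exact cOL_apply W G

/-- The value on the central path. -/
private def dl : (ℤ → ℤ → ℂ) →ₗ[ℂ] ℂ where
  toFun G := G 1 0 - G 0 1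
  map_add' G H := by simp only [Pi.add_apply]; ring
  map_smul' s G := by simp only [Pi.smul_apply, smul_eq_mul, RingHom.id_apply]; ring

private theorem evM_lin (G : ℤ → ℤ → ℂ) (c i j : ℕ) :
    evM 1 G c i j = (dl ∘ₗ (cOL (OW c) * cOL UW ^ i * cOL VW ^ j)) G := by
  rw [LinearMap.comp_apply, Module.End.mul_apply, Module.End.mul_apply, Module.End.pow_apply,
    Module.End.pow_apply, coe_cOL, coe_cOL, coe_cOL]
  rfl

/-! ### Functions killed by all words -/

private def Ker (K : ℤ → ℤ → ℂ) : Prop := ∀ ls : List ℕ, Ok 11 ls → evw 1 ls K = 0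

private theorem Tw_append (ls ls' : List ℕ) (G : ℤ → ℤ → ℂ) :
    Tw 1 (ls ++ ls') G = Tw 1 ls (Tw 1 ls' G) := by
  induction ls with
  | nil => rfl
  | cons a ls ih =>
    show Tl a 1 (Tw 1 (ls ++ ls') G) = Tl a 1 (Tw 1 ls (Tw 1 ls' G))
    rw [ih]

private theorem Ker.W {K : ℤ → ℤ → ℂ} (h : Ker K) {ls' : List ℕ} (hl : Ok 11 ls') :
    Ker (Tw 1 ls' K) := by
  intro ls hls
  have h1 := h (ls ++ ls') (fun a ha => by
    rcases List.mem_append.1 ha with h | h
    · exact hls a h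
    · exact hl a h)
  simp only [evw, Tw_append] at h1
  exact h1

private theorem Ker.add {K L : ℤ → ℤ → ℂ} (h : Ker K) (h' : Ker L) : Ker (K + L) := by
  intro ls hls
  have h1 := h ls hls
  have h2 := h' ls hls
  simp only [evw] at h1 h2
  simp only [evw, Tw_add, Pi.add_apply]
  linear_combination h1 + h2

private theorem Ker.smul {K : ℤ → ℤ → ℂ} (h : Ker K) (s : ℤ) : Ker (s • K) := by
  intro ls hls
  have h1 := h ls hls
  simp only [evw] at h1
  simp only [evw, Tw_smul, Pi.smul_apply, ← smul_sub, h1, smul_zero]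

private theorem Ker.comb {K : ℤ → ℤ → ℂ} (h : Ker K) (W : List (ℤ × List ℕ))
    (hW : ∀ t ∈ W, Ok 11 t.2) : Ker (cO W 1 K) := by
  induction W with
  | nil =>
    have h1 := h.smul 0
    rw [zero_smul] at h1
    exact h1
  | cons t W ih =>
    have h2 : cO (t :: W) 1 K =
        t.1 • Tw 1 t.2 K + cO W 1 K := by
      unfold cO
      rw [List.map_cons, List.sum_cons]
    rw [h2]
    exact ((h.W (hW t List.mem_cons_self)).smul t.1).add
      (ih fun u hu => hW u (List.mem_cons_of_mem _ hu))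

private theorem Ker.iter {f : (ℤ → ℤ → ℂ) → (ℤ → ℤ → ℂ)} (hf : ∀ K, Ker K → Ker (f K)) (n : ℕ)
    {K : ℤ → ℤ → ℂ} (h : Ker K) : Ker (f^[n] K) := by
  induction n with
  | zero => exact h
  | succ n ih =>
    rw [Function.iterate_succ_apply']
    exact hf _ ih

private theorem ok_of {W : List (ℤ × List ℕ)} (h : ∀ t ∈ W, ∀ l ∈ t.2, l ∈ PrM) :
    ∀ t ∈ W, Ok 11 t.2 := by
  intro t ht l hl
  have h1 := h t ht l hl
  simp only [PrM, List.mem_cons, List.not_mem_nil, or_false] at h1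
  rcases h1 with h | h | h | h | h | h | h | h | h | h | h | h | h <;> subst h <;>
    exact ⟨by norm_num, by norm_num⟩

private theorem okU : ∀ t ∈ UW, ∀ l ∈ t.2, l ∈ PrM := by decide

private theorem okV : ∀ t ∈ VW, ∀ l ∈ t.2, l ∈ PrM := by decide

private theorem okO (c : ℕ) : ∀ t ∈ OW c, ∀ l ∈ t.2, l ∈ PrM := by
  match c with
  | 0 => decide
  | 1 => decide
  | 2 => decide
  | 3 => decide
  | 4 => decide
  | 5 => decide
  | 6 => decide
  | 7 => decide
  | 8 => decide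
  | n + 9 =>
    have h : OW (n + 9) = OW 9 := rfl
    rw [h]
    decide

private theorem Ker.ev {K : ℤ → ℤ → ℂ} (h : Ker K) (c i j : ℕ) : evM 1 K c i j = 0 := by
  have h1 := Ker.comb (Ker.iter (fun K hK => Ker.comb hK UW (ok_of okU)) i
    (Ker.iter (fun K hK => Ker.comb hK VW (ok_of okV)) j h)) (OW c) (ok_of (okO c)) []
    (fun a ha => absurd ha List.not_mem_nil)
  exact h1

private theorem core (r s N n : ℕ) (I : Finset (ℕ × ℕ × ℕ))
    (hI : ∀ t ∈ I, t.1 ≤ 9 ∧ eM t.1 + t.2.1 + 11 * t.2.2 < 11 ^ r ∧ bM t.1 + t.2.1 + t.2.2 < 11 ^ s)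
    (hN : I.card = N) (hn : r + (s + 1) = n) (hTri : TTri) (hLif : TLif) (hUnb : TUnb) :
    ∃ G : Fin N → (ℤ → ℤ → ℂ), (∀ k, SymP 11 0 n (G k)) ∧
      LinearIndependent ℂ (fun k => evLP 11 (G k)) := by
  have h1 : ∀ t : I, ∃ (G : ℤ → ℤ → ℂ) (m : ℕ → ℕ → ℕ → ℤ), SymP 11 0 n G ∧
      (∀ c i j, evM 1 G c i j = ((m c i j : ℤ) : ℂ)) ∧
      (((m t.1.1 t.1.2.1 t.1.2.2 : ℤ) : ZMod 11) ≠ 0) ∧
      ∀ c i j, c ≤ 9 → (((m c i j : ℤ) : ZMod 11) ≠ 0 →
        (dgM c i j < dgM t.1.1 t.1.2.1 t.1.2.2 ∨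
          (dgM c i j = dgM t.1.1 t.1.2.1 t.1.2.2 ∧
            (rhM c i j < rhM t.1.1 t.1.2.1 t.1.2.2 ∨
              (rhM c i j = rhM t.1.1 t.1.2.1 t.1.2.2 ∧ c ≤ t.1.1))))) := by
    intro t
    obtain ⟨hc, ha, hb⟩ := hI t.1 t.2
    obtain ⟨g, hg, hg1, hg2⟩ := hTri r s t.1.1 t.1.2.1 t.1.2.2 hc ha hb
    obtain ⟨G, hG, hGe⟩ := hLif r s g hg
    obtain ⟨hS, hE⟩ := hUnb r (s + 1) G hG
    refine ⟨_, fun c i j => evM (11 ^ r) G c i j, hn ▸ hS, hE, ?_, ?_⟩
    · show ((evM (11 ^ r) G t.1.1 t.1.2.1 t.1.2.2 : ℤ) : ZMod 11) ≠ 0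
      rw [hGe]
      exact hg1
    · intro c i j hc' hij
      have h2 := hg2 c i j hc' (by
        rw [← hGe]
        exact hij)
      rcases h2 with h2 | ⟨h2, h3 | ⟨h3, h4⟩⟩
      · exact Or.inl h2
      · exact Or.inr ⟨h2, Or.inl h3⟩
      · exact Or.inr ⟨h2, Or.inr ⟨h3, h4.le⟩⟩
  choose G m hS hE hd hM using h1
  let M : Matrix I I ℤ := fun t u => m t u.1.1 u.1.2.1 u.1.2.2
  have hdet : M.det ≠ 0 := by
    refine unit_det (fun t : I => dgM t.1.1 t.1.2.1 t.1.2.2)
      (fun t : I => rhM t.1.1 t.1.2.1 t.1.2.2) (fun t : I => t.1.1) ?_ M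
      (fun t => hd t) (fun t u htu => hM t _ _ _ (hI u.1 u.2).1 htu)
    intro t u h2 h3 h4
    have h6 : dgM t.1.1 t.1.2.1 t.1.2.2 = dgM u.1.1 u.1.2.1 u.1.2.2 := h2
    have h7 : rhM t.1.1 t.1.2.1 t.1.2.2 = rhM u.1.1 u.1.2.1 u.1.2.2 := h3
    have h5 : t.1.1 = u.1.1 := h4
    unfold dgM at h6
    unfold rhM at h7
    rw [h5] at h6 h7
    apply Subtype.ext
    apply Prod.ext
    · exact h5
    · apply Prod.ext
      · omega
      · omega
  have hdetC : (M.map (fun x : ℤ => (x : ℂ))).det ≠ 0 := by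
    have := Int.cast_det (R := ℂ) M
    rw [← this]
    exact_mod_cast hdet
  have hli : LinearIndependent ℂ (fun t : I => evLP 11 (G t)) := by
    rw [Fintype.linearIndependent_iff]
    intro g hg
    have hH : evLP 11 (∑ t, g t • G t) = 0 := by
      rw [map_sum]
      simp only [map_smul]
      exact hg
    have hker : Ker (∑ t, g t • G t) := by
      intro ls hls
      have h2 := congrFun hH ls
      have h3 : evLP 11 (∑ t, g t • G t) ls = evw 1 ls (∑ t, g t • G t) := if_pos hls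
      rw [h3] at h2
      exact h2
    have hrel : Matrix.vecMul g (M.map (fun x : ℤ => (x : ℂ))) = 0 := by
      funext u
      have h2 := hker.ev u.1.1 u.1.2.1 u.1.2.2
      rw [evM_lin, map_sum] at h2
      simp only [map_smul, ← evM_lin, hE, smul_eq_mul] at h2
      exact h2
    exact fun t => congrFun (Matrix.eq_zero_of_vecMul_eq_zero hdetC hrel) t
  let e : Fin N ≃ I := (I.equivFinOfCardEq hN).symm
  exact ⟨fun k => G (e k), fun k => hS (e k), hli.comp e e.injective⟩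

theorem hLBof : TLBof := by
  intro hTri hLif hUnb hCnt n hn
  rcases Nat.even_or_odd' n with ⟨k, hk | hk⟩
  · subst hk
    refine core k (k - 1) _ _ _ ?_ (hCnt.1 k (by omega)) (by omega) hTri hLif hUnb
    intro t ht
    have h1 := Finset.mem_filter.1 ht
    have h2 := (Finset.mem_product.1 h1.1).1
    exact ⟨Nat.lt_succ_iff.1 (Finset.mem_range.1 h2), h1.2⟩
  · subst hk
    refine core k k _ _ _ ?_ (hCnt.2 k (by omega)) (by omega) hTri hLif hUnb
    intro t ht
    have h1 := Finset.mem_filter.1 ht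
    have h2 := (Finset.mem_product.1 h1.1).1
    exact ⟨Nat.lt_succ_iff.1 (Finset.mem_range.1 h2), h1.2⟩

end Pool.Agent.Helper62.P11
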